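import Pool.Agent.Helper5.BD.GDefs
import Pool.Agent.Helper34.CR.Resolution

/-!
# BoundedDegeneracy, module GN3: normal form of drawings
-/

noncomputable section

open Finset Helper5.CR Classical Equiv Equiv.Perm

namespace Helper5.BD

variable {V E : Type} [Fintype E] {src tgt : E → V}

/-- statement of GN1 -/
def DropStmt {V E : Type} [Fintype E] (src tgt : E → V) : Prop :=
  ∀ (P : PreDrawing src tgt), P.Clean →
    ∃ P' : PreDrawing src tgt, (∀ d, P'.Used d) ∧ ∃ j : P.X → P'.X, Function.Injective j ∧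
      ∀ e, ipts P' e = (ipts P e).map j

/-- statement of GN2 -/
def SuppressStmt3 {V E : Type} [Fintype E] (src tgt : E → V) : Prop :=
  ∀ (P : PreDrawing src tgt), (∀ d, P.Used d) → ∀ (e : E)
    (l₁ l₂ : List P.D) (c b : P.D), P.route e = l₁ ++ c :: b :: l₂ →
    P.passes (P.pt b) = 1 →
    ∃ P' : PreDrawing src tgt, (∀ d, P'.Used d) ∧ Nat.card P'.D < Nat.card P.D ∧
      ∃ j : P.X → P'.X, Function.Injective j ∧
        ∀ f, ipts P' f = ((ipts P f).filter (fun x => decide (x ≠ P.pt b))).map j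

theorem passes_eq (P : PreDrawing src tgt) (x : P.X) :
    P.passes x = ∑ e, (ipts P e).count x := rfl

/-- passes of a drawing whose interior points are filtered interior points of another drawing -/
theorem passes_filter_map (P P' : PreDrawing src tgt) (p : P.X → Bool) (j : P.X → P'.X)
    (hj : Function.Injective j)
    (h : ∀ e, ipts P' e = ((ipts P e).filter p).map j) (x : P.X)
    (hx : p x = true) : P'.passes (j x) = P.passes x := by
  rw [passes_eq, passes_eq]
  refine Finset.sum_congr rfl fun e _ => ?_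
  rw [h e, List.count_map_of_injective _ _ hj]
  exact List.count_filter hx

theorem passes_map (P P' : PreDrawing src tgt) (j : P.X → P'.X)
    (hj : Function.Injective j) (h : ∀ e, ipts P' e = (ipts P e).map j) (x : P.X) :
    P'.passes (j x) = P.passes x := by
  rw [passes_eq, passes_eq]
  refine Finset.sum_congr rfl fun e _ => ?_
  rw [h e, List.count_map_of_injective _ _ hj]

theorem one_le_passes (P : PreDrawing src tgt) (e : E) (x : P.X) (hx : x ∈ ipts P e) :
    1 ≤ P.passes x := by
  rw [passes_eq]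
  refine le_trans ?_ (Finset.single_le_sum (f := fun e => (ipts P e).count x)
    (fun _ _ => Nat.zero_le _) (Finset.mem_univ e))
  exact List.count_pos_iff.2 hx

/-- the induction -/
theorem exists_reduced_used (hsup : SuppressStmt3 src tgt) (N : ℕ) :
    ∀ P : PreDrawing src tgt, Nat.card P.D = N → (∀ d, P.Used d) →
    ∃ P' : PreDrawing src tgt, (∀ d, P'.Used d) ∧ ∃ j : P.X → P'.X, Function.Injective j ∧
      ∀ e, ipts P' e = ((ipts P e).filter (fun x => decide (2 ≤ P.passes x))).map j := by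
  induction N using Nat.strong_induction_on with
  | _ N ih =>
    intro P hN hU
    by_cases hc : ∃ e, ∃ x ∈ ipts P e, P.passes x = 1
    · obtain ⟨e, x, hx, hx1⟩ := hc
      obtain ⟨b, hb, hbx⟩ := List.mem_map.1 hx
      obtain ⟨l₁, l₂, c, hr⟩ : ∃ l₁ l₂ c, P.route e = l₁ ++ c :: b :: l₂ := by
        cases hre : P.route e with
        | nil => simp [hre] at hb
        | cons c₀ t =>
          rw [hre, List.tail_cons] at hb
          obtain ⟨s, l₂, hs⟩ := List.append_of_mem hb
          rcases List.eq_nil_or_concat s with h0 | ⟨s', c, h0⟩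
          · exact ⟨[], l₂, c₀, by rw [hs, h0]; rfl⟩
          · refine ⟨c₀ :: s', l₂, c, ?_⟩
            rw [hs, h0]
            simp
      obtain ⟨P₁, hU₁, hcard, j₁, hj₁, h₁⟩ := hsup P hU e l₁ l₂ c b hr (by rw [hbx]; exact hx1)
      obtain ⟨P₂, hU₂, j₂, hj₂, h₂⟩ := ih _ (hN ▸ hcard) P₁ rfl hU₁
      refine ⟨P₂, hU₂, j₂ ∘ j₁, hj₂.comp hj₁, fun f => ?_⟩
      rw [h₂ f, h₁ f, List.filter_map, List.filter_filter, List.map_map]
      refine congrArg (List.map (j₂ ∘ j₁)) (List.filter_congr fun y _ => ?_)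
      by_cases hy : y = P.pt b
      · have h3 : P.passes (P.pt b) = 1 := by rw [hbx]; exact hx1
        subst hy
        simp [h3]
      · have h3 := passes_filter_map P P₁ _ j₁ hj₁ h₁ y (by simpa using hy)
        simp [hy, h3, Function.comp]
    · refine ⟨P, hU, id, Function.injective_id, fun e => ?_⟩
      rw [List.map_id]
      refine (List.filter_eq_self.2 fun x hx => ?_).symm
      have h1 := one_le_passes P e x hx
      have h2 : P.passes x ≠ 1 := fun h => hc ⟨e, x, hx, h⟩
      simp only [decide_eq_true_eq]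
      omega

/-- interior points of the cleaned drawing -/
theorem ipts_clean (P : PreDrawing src tgt) : ∃ P' : PreDrawing src tgt, P'.Clean ∧
    ∃ j : P.X → P'.X, Function.Injective j ∧ ∀ e, ipts P' e = (ipts P e).map j := by
  obtain ⟨P', hC, i, j, hj, -, h2, h3, -, -⟩ := P.exists_clean
  refine ⟨P', hC, j, hj, fun e => ?_⟩
  unfold ipts
  rw [← h2 e, ← List.map_tail, List.map_map, List.map_map]
  refine List.map_congr_left fun d hd => ?_
  exact h3 d ⟨e, Or.inl (List.mem_of_mem_tail hd)⟩

theorem exists_reduced_of (hdrop : DropStmt src tgt) (hsup : SuppressStmt3 src tgt)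
    (P : PreDrawing src tgt) :
    ∃ P' : PreDrawing src tgt, (∀ d, P'.Used d) ∧ ∃ j : P.X → P'.X, Function.Injective j ∧
      ∀ e, ipts P' e = ((ipts P e).filter (fun x => decide (2 ≤ P.passes x))).map j := by
  obtain ⟨P₁, hC, j₁, hj₁, h₁⟩ := ipts_clean P
  obtain ⟨P₂, hU₂, j₂, hj₂, h₂⟩ := hdrop P₁ hC
  obtain ⟨P₃, hU₃, j₃, hj₃, h₃⟩ := exists_reduced_used hsup _ P₂ rfl hU₂
  refine ⟨P₃, hU₃, j₃ ∘ (j₂ ∘ j₁), hj₃.comp (hj₂.comp hj₁), fun e => ?_⟩
  have h4 : ∀ f, ipts P₂ f = (ipts P f).map (j₂ ∘ j₁) := by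
    intro f
    rw [h₂ f, h₁ f, List.map_map]
  rw [h₃ e, h4 e, List.filter_map, List.map_map]
  refine congrArg (List.map (j₃ ∘ (j₂ ∘ j₁))) (List.filter_congr fun y _ => ?_)
  have h5 := passes_map P P₂ (j₂ ∘ j₁) (hj₂.comp hj₁) h4 y
  simp only [Function.comp] at h5 ⊢
  simp only [h5]

theorem exists_red_of (hdrop : DropStmt src tgt) (hsup : SuppressStmt3 src tgt)
    (P : PreDrawing src tgt) (hs : P.Simple) :
    ∃ P' : PreDrawing src tgt, Red P' ∧ ∃ j : P.X → P'.X, Function.Injective j ∧
      ∀ e, ipts P' e = ((ipts P e).filter (fun x => decide (P.passes x = 2))).map j := by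
  obtain ⟨P', hU, j, hj, h⟩ := exists_reduced_of hdrop hsup P
  refine ⟨P', ⟨hU, fun e y hy => ?_⟩, j, hj, fun e => ?_⟩
  · rw [h e] at hy
    obtain ⟨x, hx, rfl⟩ := List.mem_map.1 hy
    have h1 : 2 ≤ P.passes x := by simpa using (List.mem_filter.1 hx).2
    rw [passes_filter_map P P' _ j hj h x (by simpa using h1)]
    exact le_antisymm (hs x) h1
  · rw [h e]
    refine congrArg (List.map j) (List.filter_congr fun y _ => ?_)
    have h1 := hs y
    have h2 : 2 ≤ P.passes y ↔ P.passes y = 2 := by omega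
    simp only [h2]

end Helper5.BD
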